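import Pool.Agent.H9.Fair2

set_option autoImplicit false

namespace Pool.Agent.Results.MP_e74e46_co.Counter

open Pool.Agent.H9.Fair Finset

theorem cast {m : ℕ} (u : Fin m → ℕ) (S : Finset (Fin m)) :
    worth (fun g => (u g : ℝ)) S = ((∑ g ∈ S, u g : ℕ) : ℝ) := by
  simp only [worth, Nat.cast_sum]

def U : Fin 2 → Fin 8 → ℕ := ![![6, 6, 3, 1, 1, 1, 1, 1], ![3, 3, 2, 1, 1, 1, 1, 1]]

def L : List (Fin 8 → Fin 2) :=
  [![0, 0, 0, 1, 1, 1, 1, 1], ![0, 0, 1, 1, 1, 1, 1, 1], ![0, 0, 0, 0, 1, 1, 1, 1],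
   ![0, 1, 0, 1, 1, 1, 1, 1], ![0, 0, 1, 0, 1, 1, 1, 1]]

set_option synthInstance.maxSize 2000 in
theorem key : ∀ a b c d e f g h : Fin 2,
    (∀ i j, bundle ![a, b, c, d, e, f, g, h] j = ∅ ∨ ∃ x ∈ bundle ![a, b, c, d, e, f, g, h] j,
      ∑ y ∈ (bundle ![a, b, c, d, e, f, g, h] j).erase x, U i y ≤
        ∑ y ∈ bundle ![a, b, c, d, e, f, g, h] i, U i y) →
    (∃ B ∈ L, (∀ i, ∑ y ∈ bundle ![a, b, c, d, e, f, g, h] i, U i y ≤ ∑ y ∈ bundle B i, U i y) ∧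
      ∃ i, ∑ y ∈ bundle ![a, b, c, d, e, f, g, h] i, U i y < ∑ y ∈ bundle B i, U i y) ∨
    ((bundle ![a, b, c, d, e, f, g, h] 0).card ≠ 4 ∧ ∃ i j,
      (bundle ![a, b, c, d, e, f, g, h] i).card + 1 < (bundle ![a, b, c, d, e, f, g, h] j).card) := by
  decide +kernel

theorem result : ∃ (n m : ℕ) (u : Fin n → Fin m → ℝ), 2 ≤ n ∧ (∀ i g, 0 < u i g) ∧
    ∀ A : Fin m → Fin n, EF1 u A → PO u A → ¬ Balanced A ∧ ¬ EF1 (fun _ _ => 1) A := by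
  refine ⟨2, 8, fun i g => (U i g : ℕ), le_rfl, fun i g => ?_, fun A h1 h2 => ?_⟩
  · have : ∀ i g, 0 < U i g := by decide +kernel
    exact Nat.cast_pos.2 (this i g)
  have hA : ![A 0, A 1, A 2, A 3, A 4, A 5, A 6, A 7] = A := by
    funext g
    fin_cases g <;> rfl
  have := key (A 0) (A 1) (A 2) (A 3) (A 4) (A 5) (A 6) (A 7)
  rw [hA] at this
  simp only [EF1, cast, Nat.cast_le] at h1
  simp only [PO, cast, Nat.cast_le, Nat.cast_lt] at h2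
  rcases this h1 with ⟨B, -, hB⟩ | ⟨h3, i, j, h4⟩
  · exact absurd ⟨B, hB⟩ h2
  refine ⟨fun h => h3 ((h 0).elim id id), fun h => ?_⟩
  rcases h i j with h | ⟨g, hg, h⟩
  · rw [h] at h4; simp at h4
  · simp only [worth, sum_const, nsmul_eq_mul, mul_one, Nat.cast_le, card_erase_of_mem hg] at h
    omega

end Pool.Agent.Results.MP_e74e46_co.Counter
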